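import Mathlib

namespace Pool.Agent.Results.MP_8d002f_nt.AllThree

/-- The `r`-th `k`-gonal number `P_k(r) = (1/2) r ((k-2) r - (k-4))`, as a rational number. -/
def polygonal (k r : ℤ) : ℚ := (1 / 2) * r * ((k - 2) * r - (k - 4))

/-- For each of the three values `k = 7, 14, 37` left open by Sastry there are positive integers
`a, d, r`, even with `gcd (a, d) = 1`, such that the product of the four consecutive terms
`a, a + d, a + 2d, a + 3d` of an arithmetic progression is the `r`-th `k`-gonal number. -/
theorem result :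
    ∀ k ∈ ({7, 14, 37} : Set ℤ), ∃ a d r : ℤ, 1 ≤ a ∧ 1 ≤ d ∧ 1 ≤ r ∧ Int.gcd a d = 1 ∧
      ((a * (a + d) * (a + 2 * d) * (a + 3 * d) : ℤ) : ℚ) = polygonal k r := by
  intro k hk
  simp only [Set.mem_insert_iff, Set.mem_singleton_iff] at hk
  rcases hk with rfl | rfl | rfl
  · exact ⟨18, 1, 240, by norm_num, by norm_num, by norm_num, by norm_num,
      by norm_num [polygonal]⟩
  · exact ⟨129, 7, 7920, by norm_num, by norm_num, by norm_num, by norm_num,
      by norm_num [polygonal]⟩
  · exact ⟨69, 748, 107985, by norm_num, by norm_num, by norm_num, by norm_num,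
      by norm_num [polygonal]⟩

end Pool.Agent.Results.MP_8d002f_nt.AllThree
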